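import Mathlib

/-!
# Central coefficients of `(1 + X) ^ a (1 - X) ^ b`

Used for the entries of the inverse Kasteleyn matrix of the Aztec diamond near its centre.
-/

set_option autoImplicit false

namespace Pool.Agent.N11.Knight

open Polynomial Finset

/-- the coefficient of `X ^ k` in `(1 + X) ^ a (1 - X) ^ b` -/
noncomputable def cf (a b k : ℕ) : ℚ := ((1 + X) ^ a * (1 - X) ^ b : ℚ[X]).coeff k

theorem cf_zero (a b : ℕ) : cf a b 0 = 1 := by
  simp [cf, coeff_zero_eq_eval_zero]

theorem cf_succ_left (a b k : ℕ) : cf (a + 1) b (k + 1) = cf a b (k + 1) + cf a b k := by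
  unfold cf
  have : ((1 + X) ^ (a + 1) * (1 - X) ^ b : ℚ[X]) = (1 + X) ^ a * (1 - X) ^ b +
      ((1 + X) ^ a * (1 - X) ^ b) * X := by ring
  rw [this, coeff_add, coeff_mul_X]

theorem cf_succ_right (a b k : ℕ) : cf a (b + 1) (k + 1) = cf a b (k + 1) - cf a b k := by
  unfold cf
  have : ((1 + X) ^ a * (1 - X) ^ (b + 1) : ℚ[X]) = (1 + X) ^ a * (1 - X) ^ b -
      ((1 + X) ^ a * (1 - X) ^ b) * X := by ring
  rw [this, coeff_sub, coeff_mul_X]

theorem cf_choose (a k : ℕ) : cf a 0 k = a.choose k := by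
  unfold cf
  rw [pow_zero, mul_one, coeff_one_add_X_pow]

theorem cf_big (a b k : ℕ) (h : a + b < k) : cf a b k = 0 := by
  induction b generalizing k with
  | zero => rw [cf_choose, Nat.choose_eq_zero_of_lt (by omega)]; simp
  | succ b ih =>
    obtain ⟨k, rfl⟩ : ∃ k', k = k' + 1 := ⟨k - 1, by omega⟩
    rw [cf_succ_right, ih _ (by omega), ih _ (by omega), sub_zero]

/-- the polynomial is palindromic up to the sign `(-1) ^ b` -/
theorem cf_symm (a b k l : ℕ) (h : k + l = a + b) : cf a b l = (-1) ^ b * cf a b k := by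
  induction b generalizing k l with
  | zero =>
    rw [cf_choose, cf_choose, pow_zero, one_mul]
    rw [show l = a - k from by omega, Nat.choose_symm (by omega)]
  | succ b ih =>
    rcases k with _ | k
    · obtain rfl : l = a + b + 1 := by omega
      rw [cf_succ_right, cf_big a b _ (by omega), cf_zero]
      have h1 := ih 0 (a + b) (by omega)
      rw [cf_zero] at h1
      rw [h1]; ring
    · rcases l with _ | l
      · obtain rfl : k = a + b := by omega
        rw [cf_succ_right, cf_big a b _ (by omega), cf_zero]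
        have h1 := ih (a + b) 0 (by omega)
        rw [cf_zero] at h1
        have h2 : ((-1 : ℚ) ^ b) * (-1) ^ b = 1 := by
          rw [← mul_pow]; norm_num
        rw [pow_succ]
        linear_combination h1
      · rw [cf_succ_right, cf_succ_right, ih k (l + 1) (by omega), ih (k + 1) l (by omega)]
        ring

/-- the differential equation -/
theorem cf_diff (a b k : ℕ) : ((k : ℚ) + 2) * cf a b (k + 2) - k * cf a b k =
    ((a : ℚ) - b) * cf a b (k + 1) - (a + b) * cf a b k := by
  set P : ℚ[X] := (1 + X) ^ a * (1 - X) ^ b with hP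
  have hd : (1 - X ^ 2) * derivative P = C ((a : ℚ) - b) * P - C ((a : ℚ) + b) * (P * X) := by
    have e1 : derivative ((1 + X : ℚ[X]) ^ a) * (1 + X) = C (a : ℚ) * (1 + X) ^ a := by
      rcases a with _ | a
      · simp
      · rw [derivative_pow]
        simp
        ring
    have e2 : derivative ((1 - X : ℚ[X]) ^ b) * (1 - X) = -(C (b : ℚ) * (1 - X) ^ b) := by
      rcases b with _ | b
      · simp
      · rw [derivative_pow]
        simp
        ring
    rw [hP, derivative_mul, C_sub, C_add]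
    linear_combination ((1 - X) * (1 - X) ^ b) * e1 + ((1 + X) * (1 + X) ^ a) * e2
  have h : ((1 - X ^ 2) * derivative P).coeff (k + 1) =
      (C ((a : ℚ) - b) * P - C ((a : ℚ) + b) * (P * X)).coeff (k + 1) := by rw [hd]
  rw [coeff_sub, coeff_C_mul, coeff_C_mul, coeff_mul_X, sub_mul, one_mul, coeff_sub,
    coeff_derivative, mul_comm (X ^ 2) (derivative P)] at h
  have h2 : (derivative P * X ^ 2).coeff (k + 1) = k * P.coeff k := by
    rcases k with _ | k
    · simp [coeff_mul_X_pow']
    · rw [show k + 1 + 1 = k + 2 from rfl, coeff_mul_X_pow, coeff_derivative]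
      push_cast; ring
  rw [h2] at h
  change ((k : ℚ) + 2) * P.coeff (k + 2) - k * P.coeff k = ((a : ℚ) - b) * P.coeff (k + 1) -
    (a + b) * P.coeff k
  rw [← h]
  push_cast
  ring

/-- the central coefficient -/
noncomputable def Om (m i : ℕ) : ℚ := cf (2 * i) (2 * (m - i)) m

/-- the coefficient after the central one -/
theorem next (m i : ℕ) (h : i ≤ m) :
    ((m : ℚ) + 1) * cf (2 * i) (2 * (m - i)) (m + 1) = (2 * i - m) * Om m i := by
  rcases m with _ | m
  · obtain rfl : i = 0 := by omega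
    simp [cf, Om, coeff_one]
  · have h1 := cf_diff (2 * i) (2 * (m + 1 - i)) m
    have h2 := cf_symm (2 * i) (2 * (m + 1 - i)) m (m + 2) (by omega)
    rw [(even_two_mul _).neg_one_pow, one_mul] at h2
    have h3 : ((2 * (m + 1 - i) : ℕ) : ℚ) = 2 * ((m : ℚ) + 1 - i) := by
      push_cast [Nat.cast_sub h]; ring
    rw [h3] at h1
    unfold Om
    push_cast at *
    rw [← h2] at h1
    linarith

/-- odd exponents: the central coefficient vanishes -/
theorem central_odd (m i : ℕ) (h : i < m) : cf (2 * i + 1) (2 * (m - i) - 1) m = 0 := by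
  have h2 := cf_symm (2 * i + 1) (2 * (m - i) - 1) m m (by omega)
  have h3 : Odd (2 * (m - i) - 1) := ⟨m - i - 1, by omega⟩
  rw [h3.neg_one_pow] at h2
  linarith

/-- next to central, odd exponents, in terms of lower index -/
theorem next_odd (m i : ℕ) (h : i < m) : cf (2 * i + 1) (2 * (m - i) - 1) (m + 1) =
    cf (2 * i) (2 * (m - i)) (m + 1) + Om m i := by
  have h1 := cf_succ_right (2 * i + 1) (2 * (m - i) - 1) m
  have h2 := cf_succ_left (2 * i) (2 * (m - i)) m
  rw [show 2 * (m - i) - 1 + 1 = 2 * (m - i) from by omega] at h1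
  rw [central_odd m i h] at h1
  unfold Om
  linarith

/-- next to central, odd exponents, in terms of upper index -/
theorem next_odd' (m i : ℕ) (h : i < m) : cf (2 * i + 1) (2 * (m - i) - 1) (m + 1) =
    cf (2 * (i + 1)) (2 * (m - (i + 1))) (m + 1) - Om m (i + 1) := by
  have h1 := cf_succ_right (2 * i + 2) (2 * (m - (i + 1))) m
  have h2 := cf_succ_left (2 * i + 1) (2 * (m - i) - 1) m
  rw [show 2 * (m - (i + 1)) + 1 = 2 * (m - i) - 1 from by omega] at h1
  rw [central_odd m i h] at h2
  unfold Om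
  rw [show 2 * (i + 1) = 2 * i + 2 from rfl]
  rw [show 2 * i + 1 + 1 = 2 * i + 2 from rfl] at h2
  linarith

/-- the recurrence of the central coefficients -/
theorem Om_succ (m i : ℕ) (h : i < m) :
    (2 * (m : ℚ) - 2 * i - 1) * Om m (i + 1) = -((2 * i + 1) * Om m i) := by
  have h1 := next_odd m i h
  have h2 := next_odd' m i h
  have h3 := next m i h.le
  have h4 := next m (i + 1) h
  rw [h1] at h2
  push_cast at h4
  have h5 : ((m : ℚ) + 1) * (cf (2 * i) (2 * (m - i)) (m + 1) + Om m i) =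
    ((m : ℚ) + 1) * (cf (2 * (i + 1)) (2 * (m - (i + 1))) (m + 1) - Om m (i + 1)) := by rw [h2]
  rw [mul_add, mul_sub, h3, h4] at h5
  linarith

/-- the coefficients of `(y ^ 2 - 1) ^ m / 4 ^ m` -/
noncomputable def q (m i : ℕ) : ℚ := (-1) ^ (m + i) * m.choose i / 4 ^ m

/-- the arcsine distribution -/
noncomputable def τ (m i : ℕ) : ℚ := i.centralBinom * (m - i).centralBinom / 4 ^ m

theorem q_succ (m i : ℕ) : ((i : ℚ) + 1) * q m (i + 1) = -((m - i) * q m i) := by
  have h := Nat.choose_succ_right_eq m i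
  unfold q
  rcases le_or_gt i m with hi | hi
  · have h' : ((m.choose (i + 1) : ℕ) : ℚ) * (i + 1) = m.choose i * (m - i) := by
      rw [← Nat.cast_sub hi]; exact_mod_cast h
    rw [← add_assoc, pow_succ]
    field_simp
    linear_combination (-1 : ℚ) * h'
  · rw [Nat.choose_eq_zero_of_lt hi, Nat.choose_eq_zero_of_lt (by omega : m < i + 1)]
    simp

theorem cb_succ (i : ℕ) : ((i : ℚ) + 1) * (i + 1).centralBinom = 2 * (2 * i + 1) * i.centralBinom := by
  exact_mod_cast Nat.succ_mul_centralBinom_succ i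

theorem τ_succ (m i : ℕ) (h : i < m) : ((i : ℚ) + 1) * (2 * m - 2 * i - 1) * τ m (i + 1) =
    (m - i) * (2 * i + 1) * τ m i := by
  unfold τ
  have h1 := cb_succ i
  have h2 := cb_succ (m - (i + 1))
  rw [show m - (i + 1) + 1 = m - i from by omega] at h2
  have h3 : ((m - (i + 1) : ℕ) : ℚ) = m - i - 1 := by
    rw [Nat.cast_sub h]; push_cast; ring
  rw [h3] at h2
  have h4 : (m - (i : ℚ)) * (m - i).centralBinom =
      2 * (2 * m - 2 * i - 1) * (m - (i + 1)).centralBinom := by
    linear_combination h2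
  have h5 : (4 : ℚ) ^ m ≠ 0 := by positivity
  field_simp
  linear_combination ((2 * (m : ℚ) - 2 * i - 1) * (m - (i + 1)).centralBinom) * h1 -
    ((2 * (i : ℚ) + 1) * i.centralBinom) * h4

theorem Om_zero (m : ℕ) : Om m 0 = (-1) ^ m * m.centralBinom := by
  unfold Om
  rw [show 2 * 0 = 0 from rfl, show m - 0 = m from rfl]
  -- coefficient of `(1 - X) ^ (2 m)`
  have : ∀ b k : ℕ, cf 0 b k = (-1) ^ k * (b.choose k : ℚ) := by
    intro b
    induction b with
    | zero => intro k; rw [cf_choose]; rcases k with _ | k <;> simp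
    | succ b ih =>
      intro k
      rcases k with _ | k
      · simp [cf_zero]
      · rw [cf_succ_right, ih, ih, Nat.choose_succ_succ, pow_succ]
        push_cast; ring
  rw [this, Nat.centralBinom]

theorem q_Om (m i : ℕ) (h : i ≤ m) : q m i * Om m i = τ m i := by
  induction i with
  | zero =>
    rw [Om_zero]
    unfold q τ
    have h2 : ((-1 : ℚ) ^ m) * (-1) ^ m = 1 := by rw [← mul_pow]; norm_num
    simp only [add_zero, Nat.choose_zero_right, Nat.cast_one, mul_one, Nat.centralBinom_zero,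
      one_mul, Nat.sub_zero]
    field_simp
    linear_combination (m.centralBinom : ℚ) * h2
  | succ i ih =>
    have h1 := ih (by omega)
    have h2 := q_succ m i
    have h3 := Om_succ m i (by omega)
    have h4 := τ_succ m i (by omega)
    have h5 : ((i : ℚ) + 1) * (2 * m - 2 * i - 1) ≠ 0 := by
      have : (i : ℚ) + 1 ≤ m := by exact_mod_cast h
      have h6 : (0 : ℚ) < (i : ℚ) + 1 := by positivity
      have h7 : (0 : ℚ) < 2 * m - 2 * i - 1 := by linarith
      positivity
    apply mul_left_cancel₀ h5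
    rw [h4, ← h1]
    linear_combination (2 * (m : ℚ) - 2 * i - 1) * Om m (i + 1) * h2 -
      (m - i) * q m i * h3

theorem τ_symm (m i : ℕ) (h : i ≤ m) : τ m (m - i) = τ m i := by
  unfold τ
  rw [show m - (m - i) = i from by omega, mul_comm ((m - i).centralBinom : ℚ)]

/-- the binomial theorem -/
theorem sum_q (m : ℕ) : ∑ i ∈ range (m + 1), C (q m i) * ((1 + X) ^ (2 * i) * (1 - X) ^ (2 * (m - i)) :
    ℚ[X]) = X ^ m := by
  have h : (((1 + X) ^ 2 + -(1 - X) ^ 2 : ℚ[X])) ^ m = C ((4 : ℚ) ^ m) * X ^ m := by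
    rw [show ((1 + X) ^ 2 + -(1 - X) ^ 2 : ℚ[X]) = C (4 : ℚ) * X from by
      rw [show (C (4 : ℚ) : ℚ[X]) = 4 from rfl]; ring, mul_pow, C_pow]
  rw [add_pow] at h
  have h4 : (C (((4 : ℚ) ^ m)⁻¹) * C ((4 : ℚ) ^ m) : ℚ[X]) = 1 := by
    rw [← C_mul, inv_mul_cancel₀ (by positivity), C_1]
  have h2 : C (((4 : ℚ) ^ m)⁻¹) * _ = C (((4 : ℚ) ^ m)⁻¹) * _ := congrArg _ h
  rw [← mul_assoc, h4, one_mul] at h2
  rw [← h2, mul_sum]
  refine sum_congr rfl fun i hi => ?_
  rw [mem_range] at hi
  have e1 : (-(1 - X : ℚ[X]) ^ 2) ^ (m - i) = C ((-1 : ℚ) ^ (m + i)) * (1 - X) ^ (2 * (m - i)) := by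
    rw [neg_pow, ← pow_mul]
    congr 1
    rw [show m + i = (m - i) + 2 * i from by omega, pow_add, pow_mul (-1 : ℚ) 2 i]
    simp
  rw [e1, ← pow_mul]
  unfold q
  rw [show ((-1 : ℚ) ^ (m + i) * m.choose i / 4 ^ m) = (4 ^ m)⁻¹ * ((-1) ^ (m + i) * m.choose i) from by
    rw [div_eq_mul_inv]; ring, C_mul, C_mul]
  have : (C ((m.choose i : ℕ) : ℚ) : ℚ[X]) = (m.choose i : ℚ[X]) := by simp
  rw [this]
  ring

theorem sum_τ (m : ℕ) : ∑ i ∈ range (m + 1), τ m i = 1 := by
  have h := congrArg (fun p => p.coeff m) (sum_q m)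
  simp only [finsetSum_coeff, coeff_C_mul, coeff_X_pow, if_true] at h
  rw [← h]
  refine sum_congr rfl fun i hi => ?_
  rw [mem_range] at hi
  rw [← q_Om m i (by omega)]
  rfl

end Pool.Agent.N11.Knight
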