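import Mathlib
import Pool.Agent.N11.Knight.Alg
import Pool.Agent.Helper848.AztecDet

/-!
# Entries of the inverse Kasteleyn matrix of the Aztec diamond near its centre
-/

set_option autoImplicit false

namespace Pool.Agent.N11.Knight

open Polynomial Finset
open Pool.Agent.Helper848.AztecDet (G)

theorem sum_even_odd {M : Type*} [AddCommMonoid M] (F : ℕ → M) (N : ℕ) :
    ∑ k ∈ range N, F k = ∑ i ∈ range ((N + 1) / 2), F (2 * i) + ∑ i ∈ range (N / 2), F (2 * i + 1) := by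
  induction N with
  | zero => simp
  | succ N ih =>
    rw [sum_range_succ, ih]
    rcases Nat.even_or_odd' N with ⟨a, rfl | rfl⟩
    · rw [show (2 * a + 1) / 2 = a from by omega, show (2 * a + 1 + 1) / 2 = a + 1 from by omega,
        show 2 * a / 2 = a from by omega, sum_range_succ _ a]
      rw [add_right_comm]
    · rw [show (2 * a + 1 + 1) / 2 = a + 1 from by omega,
        show (2 * a + 1 + 1 + 1) / 2 = a + 1 from by omega,
        show (2 * a + 1) / 2 = a from by omega, sum_range_succ (fun i => F (2 * i + 1)) a, add_assoc]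

theorem sum_even_odd_Ico (F : ℕ → ℚ) (M N : ℕ) (h : M ≤ N) :
    ∑ k ∈ Ico M N, F k = ∑ i ∈ Ico ((M + 1) / 2) ((N + 1) / 2), F (2 * i) +
      ∑ i ∈ Ico (M / 2) (N / 2), F (2 * i + 1) := by
  rw [sum_Ico_eq_sub _ h, sum_Ico_eq_sub _ (by omega : (M + 1) / 2 ≤ (N + 1) / 2),
    sum_Ico_eq_sub _ (by omega : M / 2 ≤ N / 2), sum_even_odd F N, sum_even_odd F M]
  ring

/-! ### partial sums of the arcsine distribution -/

/-- `C_j` -/
noncomputable def Cc (j : ℕ) : ℚ := ((j.centralBinom : ℚ) / 4 ^ j) ^ 2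

theorem τ_mid (j : ℕ) : τ (2 * j) j = Cc j := by
  unfold τ Cc
  rw [show 2 * j - j = j from by omega, div_pow, ← pow_mul, mul_comm j 2, sq]

theorem sum_upper (m I : ℕ) (h : I ≤ m + 1) :
    ∑ i ∈ Ico I (m + 1), τ m i = ∑ i ∈ range (m + 1 - I), τ m i := by
  refine sum_nbij' (fun i => m - i) (fun i => m - i) ?_ ?_ ?_ ?_ ?_
  · intro i hi; rw [mem_Ico] at hi; rw [mem_range]; omega
  · intro i hi; rw [mem_range] at hi; rw [mem_Ico]; omega
  · intro i hi; rw [mem_Ico] at hi; omega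
  · intro i hi; rw [mem_range] at hi; omega
  · intro i hi; rw [mem_Ico] at hi; exact (τ_symm m i (by omega)).symm

theorem half_even (j : ℕ) : ∑ i ∈ range j, τ (2 * j) i = (1 - Cc j) / 2 := by
  have h1 := sum_τ (2 * j)
  rw [← sum_range_add_sum_Ico _ (by omega : j + 1 ≤ 2 * j + 1), sum_upper _ _ (by omega),
    sum_range_succ, τ_mid, show 2 * j + 1 - (j + 1) = j from by omega] at h1
  linarith

theorem half_even' (j : ℕ) : ∑ i ∈ range (j + 1), τ (2 * j) i = (1 + Cc j) / 2 := by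
  rw [sum_range_succ, half_even, τ_mid]; ring

theorem half_odd (j : ℕ) : ∑ i ∈ range (j + 1), τ (2 * j + 1) i = 1 / 2 := by
  have h1 := sum_τ (2 * j + 1)
  rw [← sum_range_add_sum_Ico _ (by omega : j + 1 ≤ 2 * j + 1 + 1), sum_upper _ _ (by omega),
    show 2 * j + 1 + 1 - (j + 1) = j + 1 from by omega] at h1
  linarith

/-! ### `n = 2 m` -/

/-- the coefficients for `n = 2 m` -/
noncomputable def γe (m k : ℕ) : ℚ := if k % 2 = 0 then q m (k / 2) else 0

theorem γe_even (m i : ℕ) : γe m (2 * i) = q m i := by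
  unfold γe; rw [if_pos (by omega), show 2 * i / 2 = i from by omega]

theorem γe_odd (m i : ℕ) : γe m (2 * i + 1) = 0 := by
  unfold γe; rw [if_neg (by omega)]

theorem hγe (m : ℕ) : ∑ k ∈ range (2 * m + 1), C (γe m k) * ((1 + X) ^ k * (1 - X) ^ (2 * m - k) : ℚ[X]) =
    X ^ m := by
  rw [sum_even_odd, ← sum_q m]
  have h2 : ∑ i ∈ range ((2 * m + 1) / 2), C (γe m (2 * i + 1)) *
      ((1 + X) ^ (2 * i + 1) * (1 - X) ^ (2 * m - (2 * i + 1)) : ℚ[X]) = 0 :=
    sum_eq_zero fun i _ => by rw [γe_odd]; simp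
  rw [h2, add_zero, show (2 * m + 1 + 1) / 2 = m + 1 from by omega]
  refine sum_congr rfl fun i _ => ?_
  rw [γe_even, show 2 * m - 2 * i = 2 * (m - i) from by omega]

theorem F1 (m i : ℕ) (h : i < m) : cf (2 * i) (2 * m - 1 - 2 * i) m = Om m i / 2 := by
  obtain ⟨m, rfl⟩ : ∃ m', m = m' + 1 := ⟨m - 1, by omega⟩
  have h1 := cf_succ_right (2 * i) (2 * (m + 1) - 1 - 2 * i) m
  have h2 := cf_symm (2 * i) (2 * (m + 1) - 1 - 2 * i) (m + 1) m (by omega)
  have h3 : Odd (2 * (m + 1) - 1 - 2 * i) := ⟨m - i, by omega⟩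
  rw [h3.neg_one_pow] at h2
  rw [show 2 * (m + 1) - 1 - 2 * i + 1 = 2 * (m + 1 - i) from by omega] at h1
  unfold Om
  rw [h1]
  linarith

theorem F2 (m i : ℕ) (h : i < m) : cf (2 * i + 1) (2 * m - 1 - (2 * i + 1)) m = Om m (i + 1) / 2 := by
  obtain ⟨m, rfl⟩ : ∃ m', m = m' + 1 := ⟨m - 1, by omega⟩
  have h1 := cf_succ_left (2 * i + 1) (2 * (m + 1) - 1 - (2 * i + 1)) m
  have h2 := cf_symm (2 * i + 1) (2 * (m + 1) - 1 - (2 * i + 1)) (m + 1) m (by omega)
  have h3 : Even (2 * (m + 1) - 1 - (2 * i + 1)) := ⟨m - i, by omega⟩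
  rw [h3.neg_one_pow] at h2
  unfold Om
  rw [show 2 * (i + 1) = 2 * i + 1 + 1 from rfl, show 2 * (m + 1 - (i + 1)) =
    2 * (m + 1) - 1 - (2 * i + 1) from by omega, h1]
  linarith

/-- telescoping -/
theorem tele_e (m i : ℕ) (h : i < m) : -(q m i * (Om m (i + 1) / 2)) =
    (((i : ℚ) + 1) * τ m (i + 1) - i * τ m i) - τ m i / 2 := by
  have h1 := q_succ m i
  have h2 := q_Om m (i + 1) h
  have h3 := τ_succ m i h
  have h0 : (i : ℚ) + 1 ≤ m := by exact_mod_cast h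
  have h4 : (m : ℚ) - i ≠ 0 := by
    have : (0 : ℚ) < m - i := by linarith
    exact this.ne'
  apply mul_left_cancel₀ h4
  rw [← h2] at h3 ⊢
  linear_combination (-(1 / 2 : ℚ)) * Om m (i + 1) * h1 - (1 / 2 : ℚ) * h3

theorem coeff_term (c : ℚ) (a b k : ℕ) :
    (C c * ((1 + X) ^ a * (1 - X) ^ b) : ℚ[X]).coeff k = c * cf a b k := by
  rw [coeff_C_mul]; rfl

theorem e_H1_ee (m : ℕ) : (G (2 * m) (γe m) m m).coeff m = 1 / 2 * ∑ i ∈ range ((m + 1) / 2), τ m i := by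
  unfold G
  rw [if_neg (lt_irrefl _), Nat.sub_self, pow_zero, one_mul, finsetSum_coeff]
  simp only [coeff_term, add_zero, Nat.sub_zero]
  rw [sum_even_odd, mul_sum]
  have h2 : ∑ i ∈ range (m / 2), γe m (2 * i + 1) * cf (2 * i + 1) (2 * m - 1 - (2 * i + 1)) m = 0 :=
    sum_eq_zero fun i _ => by rw [γe_odd]; simp
  rw [h2, add_zero]
  refine sum_congr rfl fun i hi => ?_
  rw [mem_range] at hi
  rw [γe_even, F1 m i (by omega), ← q_Om m i (by omega)]
  ring

theorem e_H2_e2 (m : ℕ) (hm : 1 ≤ m) : (G (2 * m) (γe m) (m + 1) (m + 1)).coeff m =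
    1 / 2 * ∑ i ∈ range (m / 2 + 1), τ m i := by
  unfold G
  rw [if_neg (lt_irrefl _), Nat.sub_self, pow_zero, one_mul, finsetSum_coeff]
  simp only [coeff_term, add_zero, Nat.sub_zero]
  rw [sum_even_odd, mul_sum]
  have h2 : ∑ i ∈ range ((m + 1) / 2), γe m (2 * i + 1) * cf (2 * i + 1) (2 * m - 1 - (2 * i + 1)) m = 0 :=
    sum_eq_zero fun i _ => by rw [γe_odd]; simp
  rw [h2, add_zero, show (m + 1 + 1) / 2 = m / 2 + 1 from by omega]
  refine sum_congr rfl fun i hi => ?_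
  rw [mem_range] at hi
  rw [γe_even, F1 m i (by omega), ← q_Om m i (by omega)]
  ring

theorem e_H1_e2 (m : ℕ) : (G (2 * m) (γe m) m (m + 1)).coeff m =
    ((m + 1) / 2 : ℕ) * τ m ((m + 1) / 2) - 1 / 2 * ∑ i ∈ range ((m + 1) / 2), τ m i := by
  unfold G
  rw [if_neg (by omega), show m + 1 - m = 1 from by omega, pow_one, neg_one_mul, coeff_neg, finsetSum_coeff]
  simp only [coeff_term]
  rw [sum_even_odd]
  have h2 : ∑ i ∈ range (m / 2), γe m (2 * i + 1) * cf (2 * i + 1 + 1) (2 * m - 1 - (2 * i + 1) - 1) m = 0 :=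
    sum_eq_zero fun i _ => by rw [γe_odd]; simp
  rw [h2, add_zero, ← sum_neg_distrib]
  have h3 : ∀ i ∈ range ((m + 1) / 2), -(γe m (2 * i) * cf (2 * i + 1) (2 * m - 1 - 2 * i - 1) m) =
      ((((i + 1 : ℕ) : ℚ)) * τ m (i + 1) - (i : ℕ) * τ m i) - τ m i / 2 := by
    intro i hi
    rw [mem_range] at hi
    rw [γe_even, show 2 * m - 1 - 2 * i - 1 = 2 * m - 1 - (2 * i + 1) from by omega,
      F2 m i (by omega), tele_e m i (by omega)]
    push_cast; ring
  rw [sum_congr rfl h3, sum_sub_distrib, sum_range_sub (fun i => ((i : ℕ) : ℚ) * τ m i), mul_sum]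
  simp only [Nat.cast_zero, zero_mul, sub_zero]
  congr 1
  refine sum_congr rfl fun i _ => by ring

theorem e_H2_ee (m : ℕ) : (G (2 * m) (γe m) (m + 1) m).coeff m =
    1 / 2 * ∑ i ∈ Ico (m / 2 + 1) (m + 1), τ m i := by
  unfold G
  rw [if_pos (by omega), show m + 1 - 1 - m = 0 from by omega, pow_zero, one_mul, finsetSum_coeff]
  simp only [coeff_term]
  rw [sum_even_odd_Ico _ _ _ (by omega), mul_sum]
  have h2 : ∑ i ∈ Ico ((m + 1) / 2) ((2 * m + 1) / 2), γe m (2 * i + 1) *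
      cf (2 * i + 1 + m - (m + 1)) (2 * m + (m + 1) - 1 - m - (2 * i + 1)) m = 0 :=
    sum_eq_zero fun i _ => by rw [γe_odd]; simp
  rw [h2, add_zero, show (m + 1 + 1) / 2 = m / 2 + 1 from by omega,
    show (2 * m + 1 + 1) / 2 = m + 1 from by omega]
  refine sum_congr rfl fun i hi => ?_
  rw [mem_Ico] at hi
  obtain ⟨i, rfl⟩ : ∃ i', i = i' + 1 := ⟨i - 1, by omega⟩
  rw [γe_even, show 2 * (i + 1) + m - (m + 1) = 2 * i + 1 from by omega,
    show 2 * m + (m + 1) - 1 - m - 2 * (i + 1) = 2 * m - 1 - (2 * i + 1) from by omega,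
    F2 m i (by omega), ← q_Om m (i + 1) (by omega)]
  ring

/-! ### `n = 2 m + 1` -/

/-- the coefficients for `n = 2 m + 1`, `t0 = m` -/
noncomputable def γ1 (m k : ℕ) : ℚ := q m (k / 2) / 2

/-- the coefficients for `n = 2 m + 1`, `t0 = m + 1` -/
noncomputable def γ2 (m k : ℕ) : ℚ := if k % 2 = 0 then -(q m (k / 2) / 2) else q m (k / 2) / 2

theorem γ1_even (m i : ℕ) : γ1 m (2 * i) = q m i / 2 := by
  unfold γ1; rw [show 2 * i / 2 = i from by omega]

theorem γ1_odd (m i : ℕ) : γ1 m (2 * i + 1) = q m i / 2 := by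
  unfold γ1; rw [show (2 * i + 1) / 2 = i from by omega]

theorem γ2_even (m i : ℕ) : γ2 m (2 * i) = -(q m i / 2) := by
  unfold γ2; rw [if_pos (by omega), show 2 * i / 2 = i from by omega]

theorem γ2_odd (m i : ℕ) : γ2 m (2 * i + 1) = q m i / 2 := by
  unfold γ2; rw [if_neg (by omega), show (2 * i + 1) / 2 = i from by omega]

theorem hγ1 (m : ℕ) : ∑ k ∈ range (2 * m + 1 + 1), C (γ1 m k) *
    ((1 + X) ^ k * (1 - X) ^ (2 * m + 1 - k) : ℚ[X]) = X ^ m := by
  rw [sum_even_odd, ← sum_q m, show (2 * m + 1 + 1 + 1) / 2 = m + 1 from by omega,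
    show (2 * m + 1 + 1) / 2 = m + 1 from by omega, ← sum_add_distrib]
  refine sum_congr rfl fun i hi => ?_
  rw [mem_range] at hi
  rw [γ1_even, γ1_odd, show 2 * m + 1 - 2 * i = 2 * (m - i) + 1 from by omega,
    show 2 * m + 1 - (2 * i + 1) = 2 * (m - i) from by omega]
  have : (C (q m i) : ℚ[X]) = C (q m i / 2) * 2 := by
    rw [show (2 : ℚ[X]) = C 2 from rfl, ← C_mul]; congr 1; ring
  rw [this]; ring

theorem hγ2 (m : ℕ) : ∑ k ∈ range (2 * m + 1 + 1), C (γ2 m k) *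
    ((1 + X) ^ k * (1 - X) ^ (2 * m + 1 - k) : ℚ[X]) = X ^ (m + 1) := by
  rw [sum_even_odd, pow_succ, ← sum_q m, show (2 * m + 1 + 1 + 1) / 2 = m + 1 from by omega,
    show (2 * m + 1 + 1) / 2 = m + 1 from by omega, ← sum_add_distrib, sum_mul]
  refine sum_congr rfl fun i hi => ?_
  rw [mem_range] at hi
  rw [γ2_even, γ2_odd, show 2 * m + 1 - 2 * i = 2 * (m - i) + 1 from by omega,
    show 2 * m + 1 - (2 * i + 1) = 2 * (m - i) from by omega]
  have : (C (q m i) : ℚ[X]) = C (q m i / 2) * 2 := by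
    rw [show (2 : ℚ[X]) = C 2 from rfl, ← C_mul]; congr 1; ring
  rw [this, C_neg]; ring

theorem o_H (m x : ℕ) (γ : ℕ → ℚ) : (G (2 * m + 1) γ (m + 1) m).coeff x =
    ∑ i ∈ Ico ((m + 1) / 2) (m + 1), γ (2 * i + 1) * cf (2 * i) (2 * (m - i)) x +
    ∑ i ∈ Ico (m / 2) m, γ (2 * (i + 1)) * cf (2 * i + 1) (2 * (m - i) - 1) x := by
  unfold G
  rw [if_pos (by omega), show m + 1 - 1 - m = 0 from by omega, pow_zero, one_mul, finsetSum_coeff]
  simp only [coeff_term]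
  rw [← sum_Ico_add' _ m (2 * m + 1) 1, sum_even_odd_Ico _ _ _ (by omega),
    show (2 * m + 1 + 1) / 2 = m + 1 from by omega, show (2 * m + 1) / 2 = m from by omega]
  congr 1
  · refine sum_congr rfl fun i hi => ?_
    rw [mem_Ico] at hi
    rw [show 2 * i + 1 + m - (m + 1) = 2 * i from by omega,
      show 2 * m + 1 + (m + 1) - 1 - m - (2 * i + 1) = 2 * (m - i) from by omega]
  · refine sum_congr rfl fun i hi => ?_
    rw [mem_Ico] at hi
    rw [show 2 * i + 1 + 1 = 2 * (i + 1) from by ring,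
      show 2 * (i + 1) + m - (m + 1) = 2 * i + 1 from by omega,
      show 2 * m + 1 + (m + 1) - 1 - m - (2 * (i + 1)) = 2 * (m - i) - 1 from by omega]

theorem o_H_central (m : ℕ) (γ : ℕ → ℚ) (hγ : ∀ i, γ (2 * i + 1) = q m i / 2) :
    (G (2 * m + 1) γ (m + 1) m).coeff m = 1 / 2 * ∑ i ∈ Ico ((m + 1) / 2) (m + 1), τ m i := by
  rw [o_H]
  have h2 : ∑ i ∈ Ico (m / 2) m, γ (2 * (i + 1)) * cf (2 * i + 1) (2 * (m - i) - 1) m = 0 :=
    sum_eq_zero fun i hi => by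
      rw [mem_Ico] at hi
      rw [central_odd m i hi.2, mul_zero]
  rw [h2, add_zero, mul_sum]
  refine sum_congr rfl fun i hi => ?_
  rw [mem_Ico] at hi
  rw [hγ, ← q_Om m i (by omega)]
  unfold Om
  ring

theorem tele_o (m I : ℕ) (h : I ≤ m) : ∑ i ∈ Ico I (m + 1), (2 * (i : ℚ) - m) * τ m i =
    I * (2 * m - 2 * I + 1) * τ m I := by
  induction h using Nat.decreasingInduction with
  | self => rw [sum_Ico_succ_top (le_refl m), Ico_self, sum_empty]; ring
  | of_succ k hk ih =>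
    rw [sum_eq_sum_Ico_succ_bot (by omega), ih]
    have h1 := τ_succ m k hk
    push_cast
    linear_combination h1

/-- the outer sum -/
noncomputable def So (m : ℕ) : ℚ := ∑ i ∈ Ico ((m + 1) / 2) (m + 1), q m i / 2 *
  cf (2 * i) (2 * (m - i)) (m + 1)

theorem So_eq (m : ℕ) : 2 * ((m : ℚ) + 1) * So m = ((m + 1) / 2 : ℕ) *
    (2 * m - 2 * ((m + 1) / 2 : ℕ) + 1) * τ m ((m + 1) / 2) := by
  rw [← tele_o m _ (by omega), So, mul_sum]
  refine sum_congr rfl fun i hi => ?_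
  rw [mem_Ico] at hi
  rw [← q_Om m i (by omega)]
  linear_combination q m i * next m i (by omega)

theorem So_eq' (m : ℕ) : So m = ∑ i ∈ Ico (m / 2) m, q m (i + 1) / 2 *
    cf (2 * (i + 1)) (2 * (m - (i + 1))) (m + 1) := by
  rw [sum_Ico_add' (fun i => q m i / 2 * cf (2 * i) (2 * (m - i)) (m + 1)) (m / 2) m 1, So]
  rcases Nat.even_or_odd' m with ⟨j, rfl | rfl⟩
  · rw [show (2 * j + 1) / 2 = j from by omega, show 2 * j / 2 = j from by omega,
      sum_eq_sum_Ico_succ_bot (by omega)]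
    have h := next (2 * j) j (by omega)
    have h2 : cf (2 * j) (2 * (2 * j - j)) (2 * j + 1) = 0 := by
      have h3 : ((2 * j : ℕ) : ℚ) + 1 ≠ 0 := by positivity
      apply mul_left_cancel₀ h3
      rw [h]; push_cast; ring
    rw [h2, mul_zero, zero_add]
  · rw [show (2 * j + 1 + 1) / 2 = j + 1 from by omega, show (2 * j + 1) / 2 = j from by omega]

theorem o_H1_e2 (m : ℕ) : (G (2 * m + 1) (γ1 m) (m + 1) m).coeff (m + 1) =
    2 * So m - 1 / 2 * ∑ i ∈ Ico (m / 2 + 1) (m + 1), τ m i := by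
  rw [o_H, two_mul]
  nth_rewrite 2 [So_eq']
  unfold So
  rw [add_sub_assoc, mul_sum, ← sum_Ico_add' _ (m / 2) m 1, ← sum_sub_distrib]
  congr 1
  · refine sum_congr rfl fun i _ => by rw [γ1_odd]
  · refine sum_congr rfl fun i hi => ?_
    rw [mem_Ico] at hi
    rw [γ1_even, next_odd' m i hi.2, ← q_Om m (i + 1) (by omega)]
    ring

theorem o_H2_e2 (m : ℕ) : (G (2 * m + 1) (γ2 m) (m + 1) m).coeff (m + 1) =
    1 / 2 * ∑ i ∈ Ico (m / 2 + 1) (m + 1), τ m i := by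
  rw [o_H]
  have h : ∑ i ∈ Ico ((m + 1) / 2) (m + 1), γ2 m (2 * i + 1) * cf (2 * i) (2 * (m - i)) (m + 1) = So m := by
    unfold So
    refine sum_congr rfl fun i _ => by rw [γ2_odd]
  rw [h, So_eq', mul_sum, ← sum_Ico_add' _ (m / 2) m 1, ← sum_add_distrib]
  refine sum_congr rfl fun i hi => ?_
  rw [mem_Ico] at hi
  rw [γ2_even, next_odd' m i hi.2, ← q_Om m (i + 1) (by omega)]
  ring

/-! ### the values -/

/-- the combination of four entries -/
noncomputable def comb (a b c d : ℚ) : ℚ := a * (1 - 2 * b) + 2 * (c * d)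

theorem val_even_even (j : ℕ) (hj : 1 ≤ j) :
    comb ((G (2 * (2 * j)) (γe (2 * j)) (2 * j) (2 * j + 1)).coeff (2 * j))
      ((G (2 * (2 * j)) (γe (2 * j)) (2 * j + 1) (2 * j)).coeff (2 * j))
      ((G (2 * (2 * j)) (γe (2 * j)) (2 * j + 1) (2 * j + 1)).coeff (2 * j))
      ((G (2 * (2 * j)) (γe (2 * j)) (2 * j) (2 * j)).coeff (2 * j)) =
      (j : ℚ) / 2 * Cc j * (1 + Cc j) := by
  rw [e_H1_e2, e_H2_ee, e_H2_e2 _ (by omega), e_H1_ee, show (2 * j + 1) / 2 = j from by omega,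
    show 2 * j / 2 = j from by omega, half_even, half_even', sum_upper _ _ (by omega),
    show 2 * j + 1 - (j + 1) = j from by omega, half_even, τ_mid]
  unfold comb
  ring

theorem τ_mid_odd (j : ℕ) : ((j : ℚ) + 1) * τ (2 * j + 1) (j + 1) = (2 * j + 1) / 2 * Cc j := by
  have h := cb_succ j
  unfold τ Cc
  rw [show 2 * j + 1 - (j + 1) = j from by omega, pow_succ, pow_mul]
  have h4 : ((4 : ℚ) ^ 2) ^ j = (4 ^ j) ^ 2 := by rw [← pow_mul, ← pow_mul, mul_comm]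
  rw [h4]
  field_simp
  linear_combination (2 * (j.centralBinom : ℚ)) * h

theorem val_even_odd (j : ℕ) :
    comb ((G (2 * (2 * j + 1)) (γe (2 * j + 1)) (2 * j + 1) (2 * j + 1 + 1)).coeff (2 * j + 1))
      ((G (2 * (2 * j + 1)) (γe (2 * j + 1)) (2 * j + 1 + 1) (2 * j + 1)).coeff (2 * j + 1))
      ((G (2 * (2 * j + 1)) (γe (2 * j + 1)) (2 * j + 1 + 1) (2 * j + 1 + 1)).coeff (2 * j + 1))
      ((G (2 * (2 * j + 1)) (γe (2 * j + 1)) (2 * j + 1) (2 * j + 1)).coeff (2 * j + 1)) =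
      (2 * (j : ℚ) + 1) / 4 * Cc j := by
  rw [e_H1_e2, e_H2_ee, e_H2_e2 _ (by omega), e_H1_ee, show (2 * j + 1 + 1) / 2 = j + 1 from by omega,
    show (2 * j + 1) / 2 = j from by omega, half_odd, sum_upper _ _ (by omega),
    show 2 * j + 1 + 1 - (j + 1) = j + 1 from by omega, half_odd]
  have h := τ_mid_odd j
  unfold comb
  push_cast
  linear_combination (1 / 2 : ℚ) * h

theorem val_odd_even (j : ℕ) :
    comb ((G (2 * (2 * j) + 1) (γ1 (2 * j)) (2 * j + 1) (2 * j)).coeff (2 * j + 1))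
      ((G (2 * (2 * j) + 1) (γ2 (2 * j)) (2 * j + 1) (2 * j)).coeff (2 * j))
      ((G (2 * (2 * j) + 1) (γ2 (2 * j)) (2 * j + 1) (2 * j)).coeff (2 * j + 1))
      ((G (2 * (2 * j) + 1) (γ1 (2 * j)) (2 * j + 1) (2 * j)).coeff (2 * j)) =
      (2 * (j : ℚ) + 1) / 4 * Cc j * (1 - Cc j) := by
  have h := So_eq (2 * j)
  rw [show (2 * j + 1) / 2 = j from by omega, τ_mid] at h
  push_cast at h
  have h2 : So (2 * j) = (j : ℚ) / 2 * Cc j := by
    have h3 : 2 * (2 * (j : ℚ) + 1) ≠ 0 := by positivity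
    apply mul_left_cancel₀ h3
    rw [h]; ring
  rw [o_H1_e2, o_H_central _ _ (γ2_odd (2 * j)), o_H2_e2, o_H_central _ _ (γ1_odd (2 * j)),
    show (2 * j + 1) / 2 = j from by omega,
    show 2 * j / 2 = j from by omega, sum_upper _ (j + 1) (by omega), sum_upper _ j (by omega),
    show 2 * j + 1 - (j + 1) = j from by omega, show 2 * j + 1 - j = j + 1 from by omega, half_even,
    half_even', h2]
  unfold comb
  ring

theorem val_odd_odd (j : ℕ) :
    comb ((G (2 * (2 * j + 1) + 1) (γ1 (2 * j + 1)) (2 * j + 1 + 1) (2 * j + 1)).coeff (2 * j + 1 + 1))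
      ((G (2 * (2 * j + 1) + 1) (γ2 (2 * j + 1)) (2 * j + 1 + 1) (2 * j + 1)).coeff (2 * j + 1))
      ((G (2 * (2 * j + 1) + 1) (γ2 (2 * j + 1)) (2 * j + 1 + 1) (2 * j + 1)).coeff (2 * j + 1 + 1))
      ((G (2 * (2 * j + 1) + 1) (γ1 (2 * j + 1)) (2 * j + 1 + 1) (2 * j + 1)).coeff (2 * j + 1)) =
      ((j : ℚ) + 1) / 2 * Cc (j + 1) := by
  have h := So_eq (2 * j + 1)
  rw [show (2 * j + 1 + 1) / 2 = j + 1 from by omega] at h
  push_cast at h
  have h2 : So (2 * j + 1) = ((j : ℚ) + 1) / 2 * Cc (j + 1) := by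
    have h5 := cb_succ j
    have h3 : 2 * (2 * (j : ℚ) + 1 + 1) ≠ 0 := by positivity
    apply mul_left_cancel₀ h3
    rw [h]
    unfold τ Cc
    rw [show 2 * j + 1 - (j + 1) = j from by omega, pow_succ, pow_mul]
    have h4 : ((4 : ℚ) ^ 2) ^ j = (4 ^ j) ^ 2 := by rw [← pow_mul, ← pow_mul, mul_comm]
    rw [h4]
    have h6 : (4 : ℚ) ^ (j + 1) = 4 * 4 ^ j := by ring
    rw [h6, div_pow]
    have h7 : (4 : ℚ) ^ j ≠ 0 := by positivity
    linear_combination (-((j : ℚ) + 1) * (j + 1).centralBinom / (8 * (4 ^ j) ^ 2)) * h5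
  rw [o_H1_e2, o_H_central _ _ (γ2_odd (2 * j + 1)), o_H2_e2, o_H_central _ _ (γ1_odd (2 * j + 1)),
    show (2 * j + 1 + 1) / 2 = j + 1 from by omega,
    show (2 * j + 1) / 2 = j from by omega, sum_upper _ (j + 1) (by omega),
    show 2 * j + 1 + 1 - (j + 1) = j + 1 from by omega, half_odd, h2]
  unfold comb
  ring

end Pool.Agent.N11.Knight
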