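import Mathlib
import Pool.Agent.Helper848.Kast
import Pool.Agent.Helper848.AztecDet

/-!
# The Aztec diamond with two cells removed: signs of the Kasteleyn matrix
-/

set_option autoImplicit false

namespace Pool.Agent.N11.Knight

open Finset
open Pool.Agent.Helper848 (Adj IsTiling numTilings above below kast numTilings_eq)
open Pool.Agent.Helper848.AztecDet (E O K0)

/-- The Aztec diamond of order `n`.  The pair `(a, b)` stands for the unit square
`[a, a + 1] × [b, b + 1]`, whose centre is `(a + 1/2, b + 1/2)`. -/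
noncomputable def aztec (n : ℕ) : Finset (ℤ × ℤ) :=
  ((Icc (-(n : ℤ)) n) ×ˢ (Icc (-(n : ℤ)) n)).filter
    fun c => |(c.1 : ℚ) + 1 / 2| + |(c.2 : ℚ) + 1 / 2| ≤ n

theorem mem_aztec (n : ℕ) (c : ℤ × ℤ) : c ∈ aztec n ↔
    -(n : ℤ) ≤ c.1 + c.2 + 1 ∧ c.1 + c.2 + 1 ≤ n ∧ -(n : ℤ) ≤ c.2 - c.1 ∧ c.2 - c.1 ≤ n := by
  have key : |(c.1 : ℚ) + 1 / 2| + |(c.2 : ℚ) + 1 / 2| ≤ n ↔
      |2 * c.1 + 1| + |2 * c.2 + 1| ≤ 2 * (n : ℤ) := by
    have h1 : |(c.1 : ℚ) + 1 / 2| = ((|2 * c.1 + 1| : ℤ) : ℚ) / 2 := by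
      rw [Int.cast_abs, ← abs_of_pos (by norm_num : (0 : ℚ) < 2), ← abs_div, abs_of_pos (by norm_num : (0 : ℚ) < 2)]
      congr 1; push_cast; ring
    have h2 : |(c.2 : ℚ) + 1 / 2| = ((|2 * c.2 + 1| : ℤ) : ℚ) / 2 := by
      rw [Int.cast_abs, ← abs_of_pos (by norm_num : (0 : ℚ) < 2), ← abs_div, abs_of_pos (by norm_num : (0 : ℚ) < 2)]
      congr 1; push_cast; ring
    rw [h1, h2, ← add_div, div_le_iff₀ (by norm_num)]
    rw [show ((n : ℚ) * 2) = ((2 * (n : ℤ) : ℤ) : ℚ) from by push_cast; ring]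
    exact_mod_cast Iff.rfl
  unfold aztec
  rw [mem_filter, mem_product, mem_Icc, mem_Icc, key]
  constructor
  · rintro ⟨_, h⟩
    rcases abs_cases (2 * c.1 + 1) with ⟨h1, h1'⟩ | ⟨h1, h1'⟩ <;>
    rcases abs_cases (2 * c.2 + 1) with ⟨h2, h2'⟩ | ⟨h2, h2'⟩ <;>
    rw [h1, h2] at h <;> omega
  · intro h
    refine ⟨by omega, ?_⟩
    rcases abs_cases (2 * c.1 + 1) with ⟨h1, h1'⟩ | ⟨h1, h1'⟩ <;>
    rcases abs_cases (2 * c.2 + 1) with ⟨h2, h2'⟩ | ⟨h2, h2'⟩ <;>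
    rw [h1, h2] <;> omega

/-- the cells of the first kind -/
def cellE (n : ℕ) (x : E n) : ℤ × ℤ := ((x.1 : ℕ) - (x.2 : ℕ) - 1, (x.1 : ℕ) + (x.2 : ℕ) - n)

/-- the cells of the second kind -/
def cellO (n : ℕ) (o : O n) : ℤ × ℤ := ((o.1 : ℕ) - (o.2 : ℕ), (o.1 : ℕ) + (o.2 : ℕ) - n)

theorem cellE_inj (n : ℕ) : Function.Injective (cellE n) := by
  rintro ⟨⟨s, hs⟩, ⟨t, ht⟩⟩ ⟨⟨s', hs'⟩, ⟨t', ht'⟩⟩ h
  simp only [cellE, Prod.mk.injEq] at h
  ext <;> simp <;> omega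

theorem cellO_inj (n : ℕ) : Function.Injective (cellO n) := by
  rintro ⟨⟨s, hs⟩, ⟨t, ht⟩⟩ ⟨⟨s', hs'⟩, ⟨t', ht'⟩⟩ h
  simp only [cellO, Prod.mk.injEq] at h
  ext <;> simp <;> omega

theorem exists_cellE (n : ℕ) (p : ℤ × ℤ) : (∃ x, cellE n x = p) ↔
    p ∈ aztec n ∧ Even (p.1 + p.2 + (n + 1 : ℤ)) := by
  rw [mem_aztec]
  constructor
  · rintro ⟨⟨⟨s, hs⟩, ⟨t, ht⟩⟩, rfl⟩
    simp only [cellE]
    refine ⟨by omega, ?_⟩
    rw [Int.even_iff]; omega
  · rintro ⟨h, he⟩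
    rw [Int.even_iff] at he
    refine ⟨⟨⟨((p.1 + p.2 + 1 + n) / 2).toNat, by omega⟩, ⟨((p.2 - p.1 + n - 1) / 2).toNat, by omega⟩⟩, ?_⟩
    simp only [cellE]
    ext <;> simp <;> omega

theorem exists_cellO (n : ℕ) (p : ℤ × ℤ) : (∃ x, cellO n x = p) ↔
    p ∈ aztec n ∧ ¬ Even (p.1 + p.2 + (n + 1 : ℤ)) := by
  rw [mem_aztec]
  constructor
  · rintro ⟨⟨⟨s, hs⟩, ⟨t, ht⟩⟩, rfl⟩
    simp only [cellO]
    refine ⟨by omega, ?_⟩
    rw [Int.even_iff]; omega
  · rintro ⟨h, he⟩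
    rw [Int.even_iff] at he
    refine ⟨⟨⟨((p.1 + p.2 + n) / 2).toNat, by omega⟩, ⟨((p.2 - p.1 + n) / 2).toNat, by omega⟩⟩, ?_⟩
    simp only [cellO]
    ext <;> simp <;> omega

/-- the region with two cells removed -/
noncomputable def reg (n : ℕ) (e2 : E n) (o1 : O n) : Finset (ℤ × ℤ) := aztec n \ {cellE n e2, cellO n o1}

theorem cellE_ne_cellO (n : ℕ) (x : E n) (o : O n) : cellE n x ≠ cellO n o := by
  intro h
  have h1 := (exists_cellE n _).mp ⟨x, rfl⟩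
  have h2 := (exists_cellO n _).mp ⟨o, rfl⟩
  rw [h] at h1
  exact h2.2 h1.2

theorem above_E (n : ℕ) (e2 : E n) (o1 : O n) (x : E n) :
    above (reg n e2 o1) (cellE n x) + (if (x.2 : ℕ) = e2.2 ∧ (x.1 : ℕ) < e2.1 then 1 else 0) = n - x.1 := by
  set P : ℤ × ℤ → Prop := fun q => q.2 - q.1 = (cellE n x).2 - (cellE n x).1 ∧ (cellE n x).1 < q.1 with hP
  have h0 : ((aztec n).filter P).card = n - x.1 := by
    have : (aztec n).filter P = (Ioc (x.1 : ℕ) n).image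
        (fun s => (((s : ℕ) : ℤ) - (x.2 : ℕ) - 1, ((s : ℕ) : ℤ) + (x.2 : ℕ) - n)) := by
      ext q
      rw [mem_filter, mem_aztec, mem_image]
      simp only [hP, cellE]
      have hx2 := x.2.2
      have hx1 := x.1.2
      constructor
      · rintro ⟨h1, h2, h3⟩
        refine ⟨(q.1 + (x.2 : ℕ) + 1).toNat, ?_, ?_⟩
        · rw [mem_Ioc]; omega
        · ext <;> simp <;> omega
      · rintro ⟨s, hs, rfl⟩
        rw [mem_Ioc] at hs
        refine ⟨?_, ?_, ?_⟩ <;> simp <;> omega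
    rw [this, card_image_of_injective, Nat.card_Ioc]
    intro a b hab
    simp only [Prod.mk.injEq] at hab
    omega
  have h1 : (reg n e2 o1).filter P = ((aztec n).filter P).erase (cellE n e2) := by
    ext q
    rw [mem_filter, reg, mem_sdiff, mem_erase, mem_filter, mem_insert, mem_singleton]
    constructor
    · rintro ⟨⟨h, h2⟩, h3⟩; exact ⟨fun hc => h2 (Or.inl hc), h, h3⟩
    · rintro ⟨h, h2, h3⟩
      refine ⟨⟨h2, ?_⟩, h3⟩
      rintro (hc | hc)
      · exact h hc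
      · rw [hc] at h3
        simp only [hP, cellE, cellO] at h3
        omega
  change ((reg n e2 o1).filter P).card + _ = _
  rw [h1]
  have hm : cellE n e2 ∈ (aztec n).filter P ↔ ((x.2 : ℕ) = e2.2 ∧ (x.1 : ℕ) < e2.1) := by
    rw [mem_filter, and_iff_right ((exists_cellE n _).mp ⟨e2, rfl⟩).1]
    simp only [hP, cellE]
    omega
  split_ifs with hc
  · have h5 := hm.mpr hc
    rw [card_erase_of_mem h5, h0]
    have : 0 < ((aztec n).filter P).card := card_pos.mpr ⟨_, h5⟩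
    omega
  · rw [erase_eq_of_notMem (fun hh => hc (hm.mp hh)), h0, add_zero]

theorem below_O (n : ℕ) (e2 : E n) (o1 : O n) (x : O n) :
    below (reg n e2 o1) (cellO n x) + (if (x.2 : ℕ) = o1.2 ∧ (o1.1 : ℕ) < x.1 then 1 else 0) = x.1 := by
  set P : ℤ × ℤ → Prop := fun q => q.2 - q.1 = (cellO n x).2 - (cellO n x).1 ∧ q.1 < (cellO n x).1 with hP
  have h0 : ((aztec n).filter P).card = x.1 := by
    have : (aztec n).filter P = (range (x.1 : ℕ)).image
        (fun s => (((s : ℕ) : ℤ) - (x.2 : ℕ), ((s : ℕ) : ℤ) + (x.2 : ℕ) - n)) := by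
      ext q
      rw [mem_filter, mem_aztec, mem_image]
      simp only [hP, cellO]
      have hx2 := x.2.2
      have hx1 := x.1.2
      constructor
      · rintro ⟨h1, h2, h3⟩
        refine ⟨(q.1 + (x.2 : ℕ)).toNat, ?_, ?_⟩
        · rw [mem_range]; omega
        · ext <;> simp <;> omega
      · rintro ⟨s, hs, rfl⟩
        rw [mem_range] at hs
        refine ⟨?_, ?_, ?_⟩ <;> simp <;> omega
    rw [this, card_image_of_injective, card_range]
    intro a b hab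
    simp only [Prod.mk.injEq] at hab
    omega
  have h1 : (reg n e2 o1).filter P = ((aztec n).filter P).erase (cellO n o1) := by
    ext q
    rw [mem_filter, reg, mem_sdiff, mem_erase, mem_filter, mem_insert, mem_singleton]
    constructor
    · rintro ⟨⟨h, h2⟩, h3⟩; exact ⟨fun hc => h2 (Or.inr hc), h, h3⟩
    · rintro ⟨h, h2, h3⟩
      refine ⟨⟨h2, ?_⟩, h3⟩
      rintro (hc | hc)
      · rw [hc] at h3
        simp only [hP, cellE, cellO] at h3
        omega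
      · exact h hc
  change ((reg n e2 o1).filter P).card + _ = _
  rw [h1]
  have hm : cellO n o1 ∈ (aztec n).filter P ↔ ((x.2 : ℕ) = o1.2 ∧ (o1.1 : ℕ) < x.1) := by
    rw [mem_filter, and_iff_right ((exists_cellO n _).mp ⟨o1, rfl⟩).1]
    simp only [hP, cellO]
    omega
  split_ifs with hc
  · have h5 := hm.mpr hc
    rw [card_erase_of_mem h5, h0]
    have : 0 < ((aztec n).filter P).card := card_pos.mpr ⟨_, h5⟩
    omega
  · rw [erase_eq_of_notMem (fun hh => hc (hm.mp hh)), h0, add_zero]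

theorem adj_iff (n : ℕ) (x : E n) (o : O n) : Adj (cellE n x) (cellO n o) ↔
    ((x.1 : ℕ) = o.1 + 1 ∨ (x.1 : ℕ) = o.1) ∧ ((x.2 : ℕ) = o.2 ∨ (x.2 : ℕ) + 1 = o.2) := by
  unfold Adj cellE cellO
  simp only
  omega

theorem pow_par (k : ℕ) : (-1 : ℤ) ^ k = if k % 2 = 0 then 1 else -1 := by
  rcases Nat.even_or_odd' k with ⟨a, rfl | rfl⟩
  · rw [if_pos (by omega), pow_mul]; simp
  · rw [if_neg (by omega), pow_succ, pow_mul]; simp

/-- the entries of the Kasteleyn matrix -/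
theorem kast_eq (n : ℕ) (e2 : E n) (o1 : O n) (x : E n) (o : O n) :
    kast (reg n e2 o1) (cellO n o) (cellE n x) =
      if ((x.1 : ℕ) = o.1 + 1 ∨ (x.1 : ℕ) = o.1) ∧ ((x.2 : ℕ) = o.2 ∨ (x.2 : ℕ) + 1 = o.2) then
        (if (x.2 : ℕ) + 1 = o.2 then (if ((n - x.1 + o.1 +
          (if (x.2 : ℕ) = e2.2 ∧ (x.1 : ℕ) < e2.1 then 1 else 0) +
          (if (o.2 : ℕ) = o1.2 ∧ (o1.1 : ℕ) < o.1 then 1 else 0)) % 2 = 0) then 1 else -1) else 1)
      else 0 := by
  unfold kast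
  by_cases h : Adj (cellE n x) (cellO n o)
  · rw [if_pos h, if_pos ((adj_iff n x o).mp h)]
    by_cases h2 : (x.2 : ℕ) + 1 = o.2
    · rw [if_pos h2, if_pos (by simp only [cellE, cellO]; omega), pow_par]
      have h3 := above_E n e2 o1 x
      have h4 := below_O n e2 o1 o
      have hx := x.1.2
      split_ifs at h3 h4 ⊢ <;> first | rfl | omega
    · rw [if_neg h2, if_neg (by simp only [cellE, cellO]; omega)]
  · rw [if_neg h, if_neg (fun hc => h ((adj_iff n x o).mpr hc))]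

/-- integral version of `K0` -/
def K0Z (n : ℕ) : Matrix (O n) (E n) ℤ := Matrix.of fun o x =>
  (if (x.1 : ℕ) = o.1 + 1 then (1 : ℤ) else 0) *
    ((if (x.2 : ℕ) = o.2 then 1 else 0) - (if (x.2 : ℕ) + 1 = o.2 then 1 else 0)) +
  (if (x.1 : ℕ) = o.1 then (1 : ℤ) else 0) *
    ((if (x.2 : ℕ) = o.2 then 1 else 0) + (if (x.2 : ℕ) + 1 = o.2 then 1 else 0))

theorem K0Z_cast (n : ℕ) (o : O n) (x : E n) : ((K0Z n o x : ℤ) : ℚ) = K0 n o x := by
  simp only [K0Z, K0, Matrix.of_apply]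
  push_cast
  rfl

/-- the number of tilings as a determinant, given a gauge -/
theorem count (n : ℕ) (e2 ee : E n) (o1 oe : O n) (σ : O n → ℤˣ) (ρ : E n → ℤˣ)
    (h : ∀ o x, o ≠ o1 → x ≠ e2 → (if o = oe ∧ x = ee then -1 else K0Z n o x) =
      (σ o : ℤ) * ρ x * kast (reg n e2 o1) (cellO n o) (cellE n x))
    (φ : {x : E n // x ≠ e2} ≃ {o : O n // o ≠ o1}) :
    (numTilings (reg n e2 o1) : ℚ) =
      |(Matrix.of fun i j : {x : E n // x ≠ e2} => if (φ i : O n) = oe ∧ (j : E n) = ee then -1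
        else K0 n (φ i) j).det| := by
  set M : Matrix {x : E n // x ≠ e2} {x : E n // x ≠ e2} ℤ :=
    Matrix.of fun i j => if (φ i : O n) = oe ∧ (j : E n) = ee then -1 else K0Z n (φ i) j with hM
  have h1 := numTilings_eq (n + 1 : ℤ) (reg n e2 o1) (fun x : {x : E n // x ≠ e2} => cellE n x)
    (fun x => cellO n (φ x)) (fun a b hab => Subtype.ext (cellE_inj n hab))
    (fun a b hab => φ.injective (Subtype.ext (cellO_inj n hab)))
    (fun p => by
      rw [reg, mem_sdiff, mem_insert, mem_singleton, and_assoc, and_comm (a := ¬ _), ← and_assoc,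
        ← exists_cellE]
      constructor
      · rintro ⟨x, rfl⟩
        refine ⟨⟨x, rfl⟩, ?_⟩
        rintro (hc | hc)
        · exact x.2 (cellE_inj n hc)
        · exact cellE_ne_cellO n _ _ hc
      · rintro ⟨⟨x, rfl⟩, h2⟩
        exact ⟨⟨x, fun hc => h2 (Or.inl (by rw [hc]))⟩, rfl⟩)
    (fun p => by
      rw [reg, mem_sdiff, mem_insert, mem_singleton, and_assoc, and_comm (a := ¬ (_ ∨ _)), ← and_assoc,
        ← exists_cellO]
      constructor
      · rintro ⟨x, rfl⟩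
        refine ⟨⟨_, rfl⟩, ?_⟩
        rintro (hc | hc)
        · exact cellE_ne_cellO n _ _ hc.symm
        · exact (φ x).2 (cellO_inj n hc)
      · rintro ⟨⟨x, rfl⟩, h2⟩
        refine ⟨φ.symm ⟨x, fun hc => h2 (Or.inr (by rw [hc]))⟩, ?_⟩
        rw [φ.apply_symm_apply])
    (fun i => σ (φ i)) (fun j => ρ j) M (fun i j => by
      rw [hM, Matrix.of_apply, h _ _ (φ i).2 j.2])
  rw [h1, Nat.cast_natAbs, Int.cast_abs, Int.cast_det]
  congr 2
  ext i j
  rw [Matrix.map_apply, hM, Matrix.of_apply, Matrix.of_apply, ← K0Z_cast]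
  split_ifs <;> simp

end Pool.Agent.N11.Knight
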