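import Mathlib
import Pool.Agent.N11.Knight.Region
import Pool.Agent.N11.Knight.Ent

/-!
# The number of domino tilings of the Aztec diamond with two cells removed
-/

set_option autoImplicit false

namespace Pool.Agent.N11.Knight

open Finset Polynomial
open Pool.Agent.Helper848 (Adj IsTiling numTilings)
open Pool.Agent.Helper848.AztecDet (E O K0 G K0_G abs_det_K0 abs_det_minor)

theorem exists_phi (n : ℕ) (e2 : E n) (o1 : O n) :
    Nonempty ({x : E n // x ≠ e2} ≃ {o : O n // o ≠ o1}) := by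
  classical
  refine ⟨Fintype.equivOfCardEq ?_⟩
  rw [Fintype.card_subtype_compl, Fintype.card_subtype_compl]
  simp [mul_comm]

/-- the number of tilings in terms of four entries of the inverse of the Kasteleyn matrix -/
theorem count2 (n : ℕ) (hn : 1 ≤ n) (e2 ee : E n) (o1 oe : O n) (σ : O n → ℤˣ) (ρ : E n → ℤˣ)
    (h : ∀ o x, o ≠ o1 → x ≠ e2 → (if o = oe ∧ x = ee then -1 else K0Z n o x) =
      (σ o : ℤ) * ρ x * Helper848.kast (reg n e2 o1) (cellO n o) (cellE n x))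
    (hne : ee ≠ e2) (hκ : K0 n oe ee = 1) (γ1 γ2 : ℕ → ℚ) (s1 s2 : ℕ)
    (h1 : (o1.1 : ℕ) + 1 = s1) (h2 : (oe.1 : ℕ) + 1 = s2)
    (hγ1 : ∑ k ∈ range (n + 1), C (γ1 k) * ((1 + X) ^ k * (1 - X) ^ (n - k) : ℚ[X]) = X ^ (o1.2 : ℕ))
    (hγ2 : ∑ k ∈ range (n + 1), C (γ2 k) * ((1 + X) ^ k * (1 - X) ^ (n - k) : ℚ[X]) = X ^ (oe.2 : ℕ)) :
    (numTilings (reg n e2 o1) : ℚ) = 2 ^ (n * (n + 1) / 2) *
      |comb ((G n γ1 s1 e2.1).coeff e2.2) ((G n γ2 s2 ee.1).coeff ee.2)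
        ((G n γ2 s2 e2.1).coeff e2.2) ((G n γ1 s1 ee.1).coeff ee.2)| := by
  obtain ⟨φ⟩ := exists_phi n e2 o1
  rw [count n e2 ee o1 oe σ ρ h φ]
  obtain ⟨e, he⟩ := abs_det_minor (K0 n) (fun x => (G n γ1 s1 x.1).coeff x.2)
    (fun x => (G n γ2 s2 x.1).coeff x.2) o1 oe e2 ee hne
    (fun o => by
      rw [K0_G n γ1 s1 _ (by omega) (by have := o1.1.2; omega) hγ1 o]
      refine if_congr ?_ rfl rfl
      rw [Prod.ext_iff, Fin.ext_iff, Fin.ext_iff]; omega)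
    (fun o => by
      rw [K0_G n γ2 s2 _ (by omega) (by have := oe.1.2; omega) hγ2 o]
      refine if_congr ?_ rfl rfl
      rw [Prod.ext_iff, Fin.ext_iff, Fin.ext_iff]; omega)
    hκ φ
  rw [he]
  obtain ⟨N, rfl⟩ : ∃ N, n = N + 1 := ⟨n - 1, by omega⟩
  rw [abs_det_K0]
  rfl

theorem K0Z_mk (n s t s' t' : ℕ) (hs : s < n) (ht : t < n + 1) (hs' : s' < n + 1) (ht' : t' < n) :
    K0Z n (⟨s, hs⟩, ⟨t, ht⟩) (⟨s', hs'⟩, ⟨t', ht'⟩) =
      if s' = s + 1 ∧ t' = t then 1 else if s' = s + 1 ∧ t' + 1 = t then -1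
      else if s' = s ∧ t' = t then 1 else if s' = s ∧ t' + 1 = t then 1 else 0 := by
  simp only [K0Z, Matrix.of_apply]
  by_cases h1 : s' = s + 1
  · have h2 : ¬ s' = s := by omega
    simp only [h1, if_true, true_and, one_mul]
    have h3 : ¬ (s + 1 = s) := by omega
    simp only [h3, if_false, zero_mul, add_zero, false_and]
    split_ifs <;> first | omega | rfl
  · simp only [h1, if_false, false_and, zero_mul, zero_add]
    by_cases h2 : s' = s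
    · simp only [h2, if_true, true_and, one_mul]
      split_ifs <;> first | omega | rfl
    · simp only [h2, if_false, false_and, zero_mul]

theorem sgn_val (p : Prop) [Decidable p] : (((if p then -1 else 1 : ℤˣ) : ℤˣ) : ℤ) = if p then -1 else 1 := by
  split_ifs <;> rfl

theorem main_even (m : ℕ) (hm : 1 ≤ m) :
    (numTilings (reg (2 * m) (⟨m + 1, by omega⟩, ⟨m, by omega⟩) (⟨m - 1, by omega⟩, ⟨m, by omega⟩)) : ℚ) =
    2 ^ (2 * m * (2 * m + 1) / 2) *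
      |comb ((G (2 * m) (γe m) m (m + 1)).coeff m) ((G (2 * m) (γe m) (m + 1) m).coeff m)
        ((G (2 * m) (γe m) (m + 1) (m + 1)).coeff m) ((G (2 * m) (γe m) m m).coeff m)| := by
  refine count2 (2 * m) (by omega) (⟨m + 1, by omega⟩, ⟨m, by omega⟩) (⟨m, by omega⟩, ⟨m, by omega⟩)
    (⟨m - 1, by omega⟩, ⟨m, by omega⟩) (⟨m, by omega⟩, ⟨m, by omega⟩)
    (fun o => if ((o.2 : ℕ) = m ∧ m ≤ (o.1 : ℕ)) ∨ m + 1 ≤ (o.2 : ℕ) then -1 else 1)
    (fun x => if m + 1 ≤ (x.2 : ℕ) ∨ ((x.2 : ℕ) = m ∧ m < (x.1 : ℕ)) then -1 else 1)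
    ?_ (by intro h; rw [Prod.ext_iff, Fin.ext_iff] at h; simp at h) (by simp [K0]) (γe m) (γe m) m (m + 1)
    (by simp; omega) (by simp) (hγe m) (hγe m)
  rintro ⟨⟨s, hs⟩, ⟨t, ht⟩⟩ ⟨⟨s', hs'⟩, ⟨t', ht'⟩⟩ ho hx
  have ho' : ¬ (s = m - 1 ∧ t = m) := by
    rintro ⟨rfl, rfl⟩; exact ho rfl
  have hx' : ¬ (s' = m + 1 ∧ t' = m) := by
    rintro ⟨rfl, rfl⟩; exact hx rfl
  rw [kast_eq, K0Z_mk, sgn_val, sgn_val]
  simp only [Prod.mk.injEq, Fin.mk.injEq]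
  clear ho hx
  by_cases hadj : (s' = s + 1 ∨ s' = s) ∧ (t' = t ∨ t' + 1 = t)
  · rw [if_pos hadj]
    obtain ⟨h1 | h1, h2 | h2⟩ := hadj
    · rw [if_neg (by omega), if_pos ⟨h1, h2⟩, if_neg (by omega : ¬ t' + 1 = t)]
      split_ifs <;> first | omega | rfl
    · rw [if_neg (by omega), if_neg (by omega), if_pos ⟨h1, h2⟩, if_pos h2]
      split_ifs <;> first | omega | rfl
    · rw [if_neg (by omega : ¬ (s' = s + 1 ∧ t' = t)), if_neg (by omega : ¬ (s' = s + 1 ∧ t' + 1 = t)),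
        if_pos (⟨h1, h2⟩ : s' = s ∧ t' = t), if_neg (by omega : ¬ t' + 1 = t)]
      split_ifs <;> first | omega | rfl
    · rw [if_neg (by omega : ¬ (s' = s + 1 ∧ t' = t)), if_neg (by omega : ¬ (s' = s + 1 ∧ t' + 1 = t)),
        if_neg (by omega : ¬ (s' = s ∧ t' = t)), if_pos (⟨h1, h2⟩ : s' = s ∧ t' + 1 = t), if_pos h2]
      split_ifs <;> first | omega | rfl
  · rw [if_neg hadj, mul_zero, if_neg (by omega), if_neg (by omega), if_neg (by omega), if_neg (by omega),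
      if_neg (by omega)]

theorem main_odd (m : ℕ) (hm : 1 ≤ m) :
    (numTilings (reg (2 * m + 1) (⟨m, by omega⟩, ⟨m + 1, by omega⟩) (⟨m, by omega⟩, ⟨m, by omega⟩)) : ℚ) =
    2 ^ ((2 * m + 1) * (2 * m + 1 + 1) / 2) *
      |comb ((G (2 * m + 1) (γ1 m) (m + 1) m).coeff (m + 1)) ((G (2 * m + 1) (γ2 m) (m + 1) m).coeff m)
        ((G (2 * m + 1) (γ2 m) (m + 1) m).coeff (m + 1)) ((G (2 * m + 1) (γ1 m) (m + 1) m).coeff m)| := by
  refine count2 (2 * m + 1) (by omega) (⟨m, by omega⟩, ⟨m + 1, by omega⟩) (⟨m, by omega⟩, ⟨m, by omega⟩)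
    (⟨m, by omega⟩, ⟨m, by omega⟩) (⟨m, by omega⟩, ⟨m + 1, by omega⟩)
    (fun o => if ((if (o.2 : ℕ) = m ∧ m < (o.1 : ℕ) then 1 else 0) +
      (if (o.2 : ℕ) = m + 1 ∧ m ≤ (o.1 : ℕ) then 1 else 0) + (if m + 2 ≤ (o.2 : ℕ) then 1 else 0) +
      (o.2 : ℕ)) % 2 = 1 then -1 else 1)
    (fun x => if ((if (x.2 : ℕ) = m ∧ m < (x.1 : ℕ) then 1 else 0) +
      (if (x.2 : ℕ) = m + 1 ∧ m < (x.1 : ℕ) then 1 else 0) + (if m + 2 ≤ (x.2 : ℕ) then 1 else 0) +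
      (x.2 : ℕ)) % 2 = 1 then -1 else 1)
    ?_ (by intro h; rw [Prod.ext_iff, Fin.ext_iff, Fin.ext_iff] at h; simp at h) (by simp [K0]) (γ1 m) (γ2 m)
    (m + 1) (m + 1) (by simp) (by simp) (hγ1 m) (hγ2 m)
  rintro ⟨⟨s, hs⟩, ⟨t, ht⟩⟩ ⟨⟨s', hs'⟩, ⟨t', ht'⟩⟩ ho hx
  have ho' : ¬ (s = m ∧ t = m) := by
    rintro ⟨rfl, rfl⟩; exact ho rfl
  have hx' : ¬ (s' = m ∧ t' = m + 1) := by
    rintro ⟨rfl, rfl⟩; exact hx rfl
  rw [kast_eq, K0Z_mk, sgn_val, sgn_val]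
  simp only [Prod.mk.injEq, Fin.mk.injEq]
  clear ho hx
  by_cases hadj : (s' = s + 1 ∨ s' = s) ∧ (t' = t ∨ t' + 1 = t)
  · rw [if_pos hadj]
    obtain ⟨h1 | h1, h2 | h2⟩ := hadj
    · rw [if_neg (by omega), if_pos ⟨h1, h2⟩, if_neg (by omega : ¬ t' + 1 = t)]
      split_ifs <;> first | omega | rfl
    · rw [if_neg (by omega), if_neg (by omega), if_pos ⟨h1, h2⟩, if_pos h2]
      split_ifs <;> first | omega | rfl
    · rw [if_neg (by omega : ¬ (s' = s + 1 ∧ t' = t)), if_neg (by omega : ¬ (s' = s + 1 ∧ t' + 1 = t)),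
        if_pos (⟨h1, h2⟩ : s' = s ∧ t' = t), if_neg (by omega : ¬ t' + 1 = t)]
      split_ifs <;> first | omega | rfl
    · rw [if_neg (by omega : ¬ (s' = s + 1 ∧ t' = t)), if_neg (by omega : ¬ (s' = s + 1 ∧ t' + 1 = t)),
        if_neg (by omega : ¬ (s' = s ∧ t' = t)), if_pos (⟨h1, h2⟩ : s' = s ∧ t' + 1 = t), if_pos h2]
      split_ifs <;> first | omega | rfl
  · rw [if_neg hadj, mul_zero, if_neg (by omega), if_neg (by omega), if_neg (by omega), if_neg (by omega),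
      if_neg (by omega)]

end Pool.Agent.N11.Knight
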