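import Mathlib
import Pool.Agent.N11.Knight.Fin

/-!
# Symmetries of domino tilings, and the final evaluation
-/

set_option autoImplicit false

namespace Pool.Agent.N11.Knight

open Finset
open Pool.Agent.Helper848 (Adj IsTiling numTilings)
open Pool.Agent.Helper848.AztecDet (G)

theorem isTiling_map (φ : (ℤ × ℤ) ≃ (ℤ × ℤ)) (hφ : ∀ p q, Adj p q → Adj (φ p) (φ q))
    (R : Finset (ℤ × ℤ)) (T : Finset (Finset (ℤ × ℤ))) (hT : IsTiling R T) :
    IsTiling (R.map φ.toEmbedding) (T.map (Finset.mapEmbedding φ.toEmbedding).toEmbedding) := by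
  constructor
  · intro D hD
    rw [mem_map] at hD
    obtain ⟨D0, hD0, rfl⟩ := hD
    obtain ⟨h1, p, q, hpq, rfl⟩ := hT.1 D0 hD0
    refine ⟨?_, φ p, φ q, hφ p q hpq, ?_⟩
    · exact Finset.map_subset_map.mpr h1
    · ext x; simp [Finset.mapEmbedding_apply, eq_comm]
  · intro c hc
    rw [mem_map] at hc
    obtain ⟨c0, hc0, rfl⟩ := hc
    obtain ⟨D, ⟨hD1, hD2⟩, hD3⟩ := hT.2 c0 hc0
    refine ⟨D.map φ.toEmbedding, ⟨?_, ?_⟩, ?_⟩
    · rw [mem_map]; exact ⟨D, hD1, rfl⟩
    · exact Finset.mem_map_of_mem _ hD2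
    · rintro D' ⟨hD', hc'⟩
      rw [mem_map] at hD'
      obtain ⟨D0, hD0, rfl⟩ := hD'
      have : c0 ∈ D0 := by
        have h5 : φ.toEmbedding c0 ∈ D0.map φ.toEmbedding := hc'
        rwa [Finset.mem_map' φ.toEmbedding] at h5
      rw [hD3 D0 ⟨hD0, this⟩]
      rfl

theorem numTilings_map (φ : (ℤ × ℤ) ≃ (ℤ × ℤ)) (hφ : ∀ p q, Adj p q ↔ Adj (φ p) (φ q))
    (R : Finset (ℤ × ℤ)) : numTilings (R.map φ.toEmbedding) = numTilings R := by
  unfold numTilings
  have h : {T : Finset (Finset (ℤ × ℤ)) | IsTiling (R.map φ.toEmbedding) T} =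
      (fun T : Finset (Finset (ℤ × ℤ)) => T.map (Finset.mapEmbedding φ.toEmbedding).toEmbedding) ''
        {T | IsTiling R T} := by
    ext T
    simp only [Set.mem_setOf_eq, Set.mem_image]
    constructor
    · intro hT
      refine ⟨T.map (Finset.mapEmbedding φ.symm.toEmbedding).toEmbedding, ?_, ?_⟩
      · have := isTiling_map φ.symm (fun p q hpq => by
          rw [hφ, φ.apply_symm_apply, φ.apply_symm_apply]; exact hpq) _ T hT
        rw [Finset.map_map] at this
        have h2 : φ.toEmbedding.trans φ.symm.toEmbedding = Function.Embedding.refl _ := by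
          ext x <;> simp
        rwa [h2, Finset.map_refl] at this
      · rw [Finset.map_map]
        have h2 : (Finset.mapEmbedding φ.symm.toEmbedding).toEmbedding.trans
            (Finset.mapEmbedding φ.toEmbedding).toEmbedding = Function.Embedding.refl _ := by
          ext D x
          simp [Finset.mapEmbedding_apply]
        rw [h2, Finset.map_refl]
    · rintro ⟨T0, hT0, rfl⟩
      exact isTiling_map φ (fun p q h => (hφ p q).mp h) R T0 hT0
  rw [h, Set.ncard_image_of_injective]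
  exact Finset.map_injective _

/-- rotation of the cells by a quarter turn about the origin -/
def rot : (ℤ × ℤ) ≃ (ℤ × ℤ) where
  toFun c := (-c.2 - 1, c.1)
  invFun c := (c.2, -c.1 - 1)
  left_inv c := by ext <;> simp
  right_inv c := by ext <;> simp

theorem rot_adj (p q : ℤ × ℤ) : Adj p q ↔ Adj (rot p) (rot q) := by
  unfold Adj rot
  simp only [Equiv.coe_fn_mk]
  omega

/-- The region `D_n`: the Aztec diamond of order `n` without the two unit squares centred at
`(-1/2, -1/2)` and `(1/2, 3/2)`. -/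
noncomputable def D (n : ℕ) : Finset (ℤ × ℤ) := aztec n \ {(-1, -1), (0, 1)}

theorem D_even (m : ℕ) (hm : 1 ≤ m) : D (2 * m) =
    reg (2 * m) (⟨m + 1, by omega⟩, ⟨m, by omega⟩) (⟨m - 1, by omega⟩, ⟨m, by omega⟩) := by
  unfold D reg
  congr 1
  ext c
  simp only [mem_insert, mem_singleton, cellE, cellO, Prod.ext_iff]
  omega

theorem D_odd (m : ℕ) (hm : 1 ≤ m) : (D (2 * m + 1)).map rot.toEmbedding =
    reg (2 * m + 1) (⟨m, by omega⟩, ⟨m + 1, by omega⟩) (⟨m, by omega⟩, ⟨m, by omega⟩) := by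
  ext c
  rw [mem_map_equiv]
  unfold D reg
  simp only [mem_sdiff, mem_aztec, mem_insert, mem_singleton, cellE, cellO, rot, Equiv.coe_fn_symm_mk,
    Prod.ext_iff]
  omega

theorem τ_nonneg (m i : ℕ) : 0 ≤ τ m i := by unfold τ; positivity

theorem Cc_nonneg (j : ℕ) : 0 ≤ Cc j := by unfold Cc; positivity

theorem Cc_le_one (j : ℕ) : Cc j ≤ 1 := by
  have h := half_even j
  have h2 : 0 ≤ ∑ i ∈ range j, τ (2 * j) i := sum_nonneg fun i _ => τ_nonneg _ _
  linarith

theorem T_even (m : ℕ) (hm : 1 ≤ m) : (numTilings (D (2 * m)) : ℚ) =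
    2 ^ (2 * m * (2 * m + 1) / 2) *
      |comb ((G (2 * m) (γe m) m (m + 1)).coeff m) ((G (2 * m) (γe m) (m + 1) m).coeff m)
        ((G (2 * m) (γe m) (m + 1) (m + 1)).coeff m) ((G (2 * m) (γe m) m m).coeff m)| := by
  rw [D_even m hm]; exact main_even m hm

theorem T_odd (m : ℕ) (hm : 1 ≤ m) : (numTilings (D (2 * m + 1)) : ℚ) =
    2 ^ ((2 * m + 1) * (2 * m + 1 + 1) / 2) *
      |comb ((G (2 * m + 1) (γ1 m) (m + 1) m).coeff (m + 1)) ((G (2 * m + 1) (γ2 m) (m + 1) m).coeff m)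
        ((G (2 * m + 1) (γ2 m) (m + 1) m).coeff (m + 1)) ((G (2 * m + 1) (γ1 m) (m + 1) m).coeff m)| := by
  rw [← numTilings_map rot rot_adj, D_odd m hm]; exact main_odd m hm

theorem T0 (j : ℕ) (hj : 1 ≤ j) : (numTilings (D (4 * j)) : ℚ) =
    2 ^ (2 * j * (4 * j + 1)) * ((j : ℚ) / 2 * Cc j * (1 + Cc j)) := by
  have h := T_even (2 * j) (by omega)
  rw [val_even_even j hj] at h
  rw [show 4 * j = 2 * (2 * j) from by ring, h, abs_of_nonneg (by have := Cc_nonneg j; positivity)]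
  congr 2
  rw [show 2 * (2 * j) * (2 * (2 * j) + 1) = 2 * (2 * j * (2 * (2 * j) + 1)) from by ring,
    Nat.mul_div_cancel_left _ (by norm_num)]

theorem T2 (j : ℕ) : (numTilings (D (4 * j + 2)) : ℚ) =
    2 ^ ((2 * j + 1) * (4 * j + 3)) * ((2 * (j : ℚ) + 1) / 4 * Cc j) := by
  have h := T_even (2 * j + 1) (by omega)
  rw [val_even_odd j] at h
  rw [show 4 * j + 2 = 2 * (2 * j + 1) from by ring, h, abs_of_nonneg (by have := Cc_nonneg j; positivity)]
  congr 2
  rw [show 2 * (2 * j + 1) * (2 * (2 * j + 1) + 1) = 2 * ((2 * j + 1) * (4 * j + 3)) from by ring,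
    Nat.mul_div_cancel_left _ (by norm_num)]

theorem T1 (j : ℕ) (hj : 1 ≤ j) : (numTilings (D (4 * j + 1)) : ℚ) =
    2 ^ ((2 * j + 1) * (4 * j + 1)) * ((2 * (j : ℚ) + 1) / 4 * Cc j * (1 - Cc j)) := by
  have h := T_odd (2 * j) (by omega)
  rw [val_odd_even j] at h
  have h1 : 0 ≤ 1 - Cc j := by have := Cc_le_one j; linarith
  rw [show 4 * j + 1 = 2 * (2 * j) + 1 from by ring, h, abs_of_nonneg (by have := Cc_nonneg j; positivity)]
  congr 2
  rw [show (2 * (2 * j) + 1) * (2 * (2 * j) + 1 + 1) = 2 * ((2 * j + 1) * (2 * (2 * j) + 1)) from by ring,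
    Nat.mul_div_cancel_left _ (by norm_num)]

theorem T3 (j : ℕ) : (numTilings (D (4 * j + 3)) : ℚ) =
    2 ^ ((2 * j + 2) * (4 * j + 3)) * (((j : ℚ) + 1) / 2 * Cc (j + 1)) := by
  have h := T_odd (2 * j + 1) (by omega)
  rw [val_odd_odd j] at h
  rw [show 4 * j + 3 = 2 * (2 * j + 1) + 1 from by ring, h, abs_of_nonneg (by have := Cc_nonneg (j + 1); positivity)]
  congr 2
  rw [show (2 * (2 * j + 1) + 1) * (2 * (2 * j + 1) + 1 + 1) = 2 * ((2 * j + 2) * (2 * (2 * j + 1) + 1)) from by ring,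
    Nat.mul_div_cancel_left _ (by norm_num)]

end Pool.Agent.N11.Knight
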